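import Pool.Agent.H891R2.SI.Defs
import Pool.Agent.H891R2.MT.T4b

set_option autoImplicit false

/-! S6: the extreme terms are not cancelled. -/

namespace Pool.Agent.H891R2.SI.S6

open Finset LaurentPolynomial Pool.Agent.H891R2.Jones Pool.Agent.H891R2.MT T4b

variable {k : ℕ}

/-- coefficients of `T m * f` -/
theorem coeff_T_mul (m : ℤ) (f : ℤ[T;T⁻¹]) (j : ℤ) : (T m * f).coeff (m + j) = f.coeff j := by
  unfold LaurentPolynomial.T
  rw [AddMonoidAlgebra.coeff_single_mul_add, one_mul]

theorem coeff_neg_one_pow_mul (n : ℕ) (f : ℤ[T;T⁻¹]) (j : ℤ) :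
    ((-1 : ℤ[T;T⁻¹]) ^ n * f).coeff j = (-1) ^ n * f.coeff j := by
  rcases Nat.even_or_odd n with h | h
  · rw [h.neg_one_pow, h.neg_one_pow, one_mul, one_mul]
  · rw [h.neg_one_pow, h.neg_one_pow, neg_one_mul, neg_one_mul]
    rfl

/-- the term of the set `R` -/
noncomputable def tm (Z : Finset (Fin k) → ℤ[T;T⁻¹]) (w : Fin k → ℤ) (R : Finset (Fin k)) :
    ℤ[T;T⁻¹] := ((-1) ^ (nS w R).natAbs * T (-4 * nS w R)) * Z R

theorem tm_coeff (Z : Finset (Fin k) → ℤ[T;T⁻¹]) (w : Fin k → ℤ) (R : Finset (Fin k)) (j : ℤ) :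
    (tm Z w R).coeff (-4 * nS w R + j) = (-1) ^ (nS w R).natAbs * (Z R).coeff j := by
  unfold tm
  rw [mul_assoc, coeff_neg_one_pow_mul, coeff_T_mul]

theorem tm_zero {B : ℤ} {Z : Finset (Fin k) → ℤ[T;T⁻¹]} (hZ : ∀ R, SIn (Z R) (-B) B)
    (w : Fin k → ℤ) (R : Finset (Fin k)) (i : ℤ) (h : i < -4 * nS w R - B ∨ -4 * nS w R + B < i) :
    (tm Z w R).coeff i = 0 := by
  have h1 := tm_coeff Z w R (i + 4 * nS w R)
  have h2 : -4 * nS w R + (i + 4 * nS w R) = i := by ring
  rw [h2] at h1
  rw [h1]
  by_cases h3 : (Z R).coeff (i + 4 * nS w R) = 0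
  · rw [h3, mul_zero]
  · have := hZ R _ h3
    omega

theorem coeff_sum' {ι : Type} (s : Finset ι) (f : ι → ℤ[T;T⁻¹]) (j : ℤ) :
    (∑ i ∈ s, f i).coeff j = ∑ i ∈ s, (f i).coeff j := by
  classical
  induction s using Finset.induction_on with
  | empty => rfl
  | insert a s ha ih =>
    rw [Finset.sum_insert ha, Finset.sum_insert ha, AddMonoidAlgebra.coeff_add, Finsupp.add_apply, ih]

/-- a set which is separated from all other sets gives a nonzero coefficient -/
theorem coeff_ne {B : ℤ} {Z : Finset (Fin k) → ℤ[T;T⁻¹]} (hZ : ∀ R, SIn (Z R) (-B) B)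
    (w : Fin k → ℤ) (P : Finset (Fin k)) (hP : ∀ R, R ≠ P → 2 * B < 4 * |nS w P - nS w R|) (j : ℤ)
    (hj : (Z P).coeff j ≠ 0) :
    (∑ R : Finset (Fin k), ((-1) ^ (nS w R).natAbs * T (-4 * nS w R)) * Z R).coeff
      (-4 * nS w P + j) ≠ 0 := by
  have hjB := hZ P j hj
  have h0 : (∑ R : Finset (Fin k), tm Z w R).coeff (-4 * nS w P + j) ≠ 0 := by
    rw [coeff_sum', Finset.sum_eq_single P, tm_coeff]
    · exact mul_ne_zero (pow_ne_zero _ (by norm_num)) hj
    · intro R _ hR
      apply tm_zero hZ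
      have h1 := hP R hR
      rcases le_total 0 (nS w P - nS w R) with h2 | h2
      · rw [abs_of_nonneg h2] at h1
        left; omega
      · rw [abs_of_nonpos h2] at h1
        right; omega
    · intro h; exact absurd (Finset.mem_univ _) h
  exact h0

theorem nS_eq (w : Fin k → ℤ) (R : Finset (Fin k)) : nS w R = ∑ e, if e ∈ R then w e else 0 := by
  unfold nS
  rw [Finset.sum_ite_mem, Finset.univ_inter]

theorem exists_coeff {f : ℤ[T;T⁻¹]} (hf : f ≠ 0) : ∃ j, f.coeff j ≠ 0 := by
  by_contra hc
  push Not at hc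
  apply hf
  ext j
  exact hc j

theorem S6 (B : ℤ) (Z : Finset (Fin k) → ℤ[T;T⁻¹]) (hZ : ∀ R, SIn (Z R) (-B) B) 
    (hZ0 : ∀ R, Z R ≠ 0) (w : Fin k → ℤ) (hw : ∀ e, B < 2 * |w e|) (lo hi : ℤ)
    (h : SIn (∑ R : Finset (Fin k), ((-1) ^ (nS w R).natAbs * T (-4 * nS w R)) * Z R) lo hi) :
    4 * ∑ e, |w e| ≤ (hi - lo) + 2 * B := by
  classical
  set P : Finset (Fin k) := Finset.univ.filter (fun e => 0 < w e) with hPdef
  set M : Finset (Fin k) := Finset.univ.filter (fun e => w e < 0) with hMdef
  obtain ⟨j0, hj0⟩ := exists_coeff (hZ0 P)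
  obtain ⟨j1, hj1⟩ := exists_coeff (hZ0 M)
  have hB0 := hZ P j0 hj0
  have hB1 := hZ M j1 hj1
  have hwne : ∀ e, w e ≠ 0 := by
    intro e he
    have := hw e
    rw [he, abs_zero] at this
    omega
  have hmemP : ∀ e, e ∈ P ↔ 0 < w e := fun e => by simp [hPdef]
  have hmemM : ∀ e, e ∈ M ↔ w e < 0 := fun e => by simp [hMdef]
  have hsepP : ∀ R, R ≠ P → 2 * B < 4 * |nS w P - nS w R| := by
    intro R hR
    obtain ⟨e, he⟩ : ∃ e, ¬ (e ∈ R ↔ e ∈ P) := by
      by_contra hc
      push Not at hc
      exact hR (Finset.ext hc)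
    have h1 : |w e| ≤ nS w P - nS w R := by
      rw [nS_eq, nS_eq, ← Finset.sum_sub_distrib]
      have hterm : ∀ e, 0 ≤ (if e ∈ P then w e else 0) - (if e ∈ R then w e else 0) := by
        intro e
        have := hmemP e
        by_cases h1 : e ∈ P
        · have h2 := this.mp h1
          rw [if_pos h1]
          split_ifs <;> omega
        · have h2 : w e ≤ 0 := by
            by_contra hc
            exact h1 (this.mpr (by omega))
          rw [if_neg h1]
          split_ifs <;> omega
      have h2 := Finset.single_le_sum (f := fun e => (if e ∈ P then w e else 0) - (if e ∈ R then w e else 0))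
        (fun e _ => hterm e) (Finset.mem_univ e)
      refine le_trans ?_ h2
      show |w e| ≤ (if e ∈ P then w e else 0) - (if e ∈ R then w e else 0)
      have h3 := hmemP e
      by_cases h4 : e ∈ P
      · have h5 : e ∉ R := fun hh => he (iff_of_true hh h4)
        rw [if_pos h4, if_neg h5, abs_of_pos (h3.mp h4)]
        omega
      · have h5 : e ∈ R := by
          by_contra hh
          exact he (iff_of_false hh h4)
        have h6 : w e < 0 := by
          have h7 : ¬ 0 < w e := fun hh => h4 (h3.mpr hh)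
          have := hwne e
          omega
        rw [if_neg h4, if_pos h5, abs_of_neg h6]
        omega
    have h2 := hw e
    have h3 := le_abs_self (nS w P - nS w R)
    omega
  have hsepM : ∀ R, R ≠ M → 2 * B < 4 * |nS w M - nS w R| := by
    intro R hR
    obtain ⟨e, he⟩ : ∃ e, ¬ (e ∈ R ↔ e ∈ M) := by
      by_contra hc
      push Not at hc
      exact hR (Finset.ext hc)
    have h1 : |w e| ≤ nS w R - nS w M := by
      rw [nS_eq, nS_eq, ← Finset.sum_sub_distrib]
      have hterm : ∀ e, 0 ≤ (if e ∈ R then w e else 0) - (if e ∈ M then w e else 0) := by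
        intro e
        have := hmemM e
        by_cases h1 : e ∈ M
        · have h2 := this.mp h1
          rw [if_pos h1]
          split_ifs <;> omega
        · have h2 : 0 ≤ w e := by
            by_contra hc
            exact h1 (this.mpr (by omega))
          rw [if_neg h1]
          split_ifs <;> omega
      have h2 := Finset.single_le_sum (f := fun e => (if e ∈ R then w e else 0) - (if e ∈ M then w e else 0))
        (fun e _ => hterm e) (Finset.mem_univ e)
      refine le_trans ?_ h2
      show |w e| ≤ (if e ∈ R then w e else 0) - (if e ∈ M then w e else 0)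
      have h3 := hmemM e
      by_cases h4 : e ∈ M
      · have h5 : e ∉ R := fun hh => he (iff_of_true hh h4)
        rw [if_pos h4, if_neg h5, abs_of_neg (h3.mp h4)]
        omega
      · have h5 : e ∈ R := by
          by_contra hh
          exact he (iff_of_false hh h4)
        have h6 : 0 < w e := by
          have h7 : ¬ w e < 0 := fun hh => h4 (h3.mpr hh)
          have := hwne e
          omega
        rw [if_neg h4, if_pos h5, abs_of_pos h6]
        omega
    have h2 := hw e
    have h3 := neg_abs_le (nS w M - nS w R)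
    omega
  have hc0 := h _ (coeff_ne hZ w P hsepP j0 hj0)
  have hc1 := h _ (coeff_ne hZ w M hsepM j1 hj1)
  have hsum : ∑ e, |w e| = nS w P - nS w M := by
    rw [nS_eq, nS_eq, ← Finset.sum_sub_distrib]
    refine Finset.sum_congr rfl fun e _ => ?_
    have h1 := hmemP e
    have h2 := hmemM e
    rcases lt_trichotomy (w e) 0 with h3 | h3 | h3
    · rw [if_neg (fun hh => by have := h1.mp hh; omega), if_pos (h2.mpr h3), abs_of_neg h3]
      omega
    · exact absurd h3 (hwne e)
    · rw [if_pos (h1.mpr h3), if_neg (fun hh => by have := h2.mp hh; omega), abs_of_pos h3]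
      omega
  rw [hsum]
  omega

end Pool.Agent.H891R2.SI.S6
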