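import Pool.Agent.H891R2.SI.Defs

set_option autoImplicit false

/-!
S2: the number of loops of a state of a connected diagram.
-/

namespace Pool.Agent.H891R2.SI.S2

open Finset LaurentPolynomial Pool.Agent.H891R2.Jones Pool.Agent.H891R2.MT
open Pool.Agent.H891R2.SI

variable {k : ℕ}

/-- one more pair decreases the number of classes by at most one -/
theorem card_pair {P : Type} [Finite P] (r : P → P → Prop) (a b : P) :
    Nat.card (Quot r) ≤ Nat.card (Quot (fun p q => r p q ∨ (p = a ∧ q = b))) + 1 := by
  classical
  let f : Quot r → Quot (fun p q => r p q ∨ (p = a ∧ q = b)) :=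
    Quot.lift (fun p => Quot.mk _ p) (fun p q h => Quot.sound (Or.inl h))
  let g : Quot (fun p q => r p q ∨ (p = a ∧ q = b)) → Quot r :=
    Quot.lift (fun p => if Quot.mk r p = Quot.mk r b then Quot.mk r a else Quot.mk r p) (by
      intro p q h
      rcases h with h | ⟨rfl, rfl⟩
      · rw [Quot.sound h]
      · simp)
  have hgf : ∀ x : Quot r, x ≠ Quot.mk r b → g (f x) = x := by
    intro x
    induction x using Quot.ind with
    | mk p =>
      intro hp
      change (if Quot.mk r p = Quot.mk r b then Quot.mk r a else Quot.mk r p) = Quot.mk r p
      rw [if_neg hp]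
  have hinj : Function.Injective (fun x : Quot r =>
      if x = Quot.mk r b then (none : Option (Quot (fun p q => r p q ∨ (p = a ∧ q = b))))
      else some (f x)) := by
    intro x y hxy
    dsimp only at hxy
    by_cases hx : x = Quot.mk r b
    · by_cases hy : y = Quot.mk r b
      · rw [hx, hy]
      · rw [if_pos hx, if_neg hy] at hxy
        exact absurd hxy (by simp)
    · by_cases hy : y = Quot.mk r b
      · rw [if_neg hx, if_pos hy] at hxy
        exact absurd hxy (by simp)
      · rw [if_neg hx, if_neg hy] at hxy
        have h := Option.some.inj hxy
        rw [← hgf x hx, ← hgf y hy, h]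
  have h1 := Nat.card_le_card_of_injective _ hinj
  rwa [Finite.card_option] at h1

/-- a list of pairs -/
theorem card_list {P : Type} [Finite P] (L : List (P × P)) : ∀ (r : P → P → Prop),
    Nat.card (Quot r) ≤ Nat.card (Quot (fun p q => r p q ∨ (p, q) ∈ L)) + L.length := by
  induction L with
  | nil =>
    intro r
    have : (fun p q => r p q ∨ (p, q) ∈ ([] : List (P × P))) = r := by
      funext p q
      simp
    rw [this]
    simp
  | cons x L ih =>
    intro r
    obtain ⟨a, b⟩ := x
    have h1 := card_pair r a b
    have h2 := ih (fun p q => r p q ∨ (p = a ∧ q = b))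
    have : (fun p q => r p q ∨ (p, q) ∈ (a, b) :: L) =
        (fun p q => (r p q ∨ (p = a ∧ q = b)) ∨ (p, q) ∈ L) := by
      funext p q
      apply propext
      rw [List.mem_cons, Prod.mk.injEq, or_assoc]
    rw [this, List.length_cons]
    omega

/-- S2: the number of loops of a state of a connected diagram -/
theorem S2 (O : Sites k) (hO : O.Connected) (S : Finset (Fin k))
    (s : Fin (O.state S).std.crossings.length → Bool) :
    (O.state S).std.loops s ≤ O.crossings.length + k + 1 := by
  classical
  let L : List (O.P × O.P) := O.crossings.map (fun x => (x.1, x.2.2.1)) ++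
    (List.finRange k).map (fun e => (O.corner e false true, O.corner e true false))
  have hL : L.length = O.crossings.length + k := by
    simp [L]
  have h1 := card_list L ((O.state S).std.Joined s)
  rw [hL] at h1
  have hsub : Subsingleton (Quot (fun p q => (O.state S).std.Joined s p q ∨ (p, q) ∈ L)) := by
    have hmk : ∀ {p q : O.P}, ((O.state S).std.Joined s p q ∨ (p, q) ∈ L) →
        Quot.mk (fun p q => (O.state S).std.Joined s p q ∨ (p, q) ∈ L) p = Quot.mk _ q :=
      fun h => Quot.sound h
    have hgen : ∀ p q : O.P, ((p, q) ∈ O.arcs ∨
        (∃ x ∈ O.crossings, (p = x.1 ∨ p = x.2.1 ∨ p = x.2.2.1 ∨ p = x.2.2.2) ∧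
          (q = x.1 ∨ q = x.2.1 ∨ q = x.2.2.1 ∨ q = x.2.2.2)) ∨
        (∃ (e : Fin k) (t l t' l' : Bool), p = O.corner e t l ∧ q = O.corner e t' l')) →
        Quot.mk (fun p q => (O.state S).std.Joined s p q ∨ (p, q) ∈ L) p = Quot.mk _ q := by
      intro p q h
      rcases h with h | ⟨x, hx, hp, hq⟩ | ⟨e, t, l, t', l', rfl, rfl⟩
      · refine hmk (Or.inl (Or.inl ?_))
        change (p, q) ∈ O.arcs ++ _
        exact List.mem_append_left _ h
      · -- a crossing
        have hac : Quot.mk (fun p q => (O.state S).std.Joined s p q ∨ (p, q) ∈ L) x.1 =
            Quot.mk _ x.2.2.1 := by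
          refine hmk (Or.inr ?_)
          exact List.mem_append_left _ (List.mem_map.mpr ⟨x, hx, rfl⟩)
        have hmem : (⟨x.1, x.2.1, x.2.2.1, x.2.2.2, true, true⟩ : Crossing O.P) ∈
            (O.state S).std.crossings := List.mem_map.mpr ⟨x, hx, rfl⟩
        obtain ⟨i, hi, hxi⟩ := List.mem_iff_getElem.mp hmem
        have hxi' : (O.state S).std.crossings[(⟨i, hi⟩ : Fin _)] =
            (⟨x.1, x.2.1, x.2.2.1, x.2.2.2, true, true⟩ : Crossing O.P) := hxi
        have hall : Quot.mk (fun p q => (O.state S).std.Joined s p q ∨ (p, q) ∈ L) x.1 =
            Quot.mk _ x.2.1 ∧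
            Quot.mk (fun p q => (O.state S).std.Joined s p q ∨ (p, q) ∈ L) x.1 =
            Quot.mk _ x.2.2.2 := by
          by_cases hs : s ⟨i, hi⟩ = true
          · have j1 : (O.state S).std.Joined s x.1 x.2.1 := by
              refine Or.inr ⟨⟨i, hi⟩, ?_⟩
              rw [if_pos hs, hxi']
              exact Or.inl ⟨rfl, rfl⟩
            have j2 : (O.state S).std.Joined s x.2.2.1 x.2.2.2 := by
              refine Or.inr ⟨⟨i, hi⟩, ?_⟩
              rw [if_pos hs, hxi']
              exact Or.inr ⟨rfl, rfl⟩
            exact ⟨hmk (Or.inl j1), hac.trans (hmk (Or.inl j2))⟩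
          · have j1 : (O.state S).std.Joined s x.2.1 x.2.2.1 := by
              refine Or.inr ⟨⟨i, hi⟩, ?_⟩
              rw [if_neg hs, hxi']
              exact Or.inl ⟨rfl, rfl⟩
            have j2 : (O.state S).std.Joined s x.2.2.2 x.1 := by
              refine Or.inr ⟨⟨i, hi⟩, ?_⟩
              rw [if_neg hs, hxi']
              exact Or.inr ⟨rfl, rfl⟩
            exact ⟨hac.trans (hmk (Or.inl j1)).symm, (hmk (Or.inl j2)).symm⟩
        have hp' : Quot.mk (fun p q => (O.state S).std.Joined s p q ∨ (p, q) ∈ L) x.1 =
            Quot.mk _ p := by
          rcases hp with rfl | rfl | rfl | rfl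
          · rfl
          · exact hall.1
          · exact hac
          · exact hall.2
        have hq' : Quot.mk (fun p q => (O.state S).std.Joined s p q ∨ (p, q) ∈ L) x.1 =
            Quot.mk _ q := by
          rcases hq with rfl | rfl | rfl | rfl
          · rfl
          · exact hall.1
          · exact hac
          · exact hall.2
        exact hp'.symm.trans hq'
      · -- a site
        have hdiag : Quot.mk (fun p q => (O.state S).std.Joined s p q ∨ (p, q) ∈ L)
            (O.corner e false true) = Quot.mk _ (O.corner e true false) := by
          refine hmk (Or.inr ?_)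
          exact List.mem_append_right _ (List.mem_map.mpr ⟨e, List.mem_finRange e, rfl⟩)
        have harc : ∀ y : O.P × O.P, y ∈ (if e ∈ S
            then [(O.corner e false true, O.corner e true true),
              (O.corner e false false, O.corner e true false)]
            else [(O.corner e false true, O.corner e false false),
              (O.corner e true true, O.corner e true false)]) →
            Quot.mk (fun p q => (O.state S).std.Joined s p q ∨ (p, q) ∈ L) y.1 =
              Quot.mk _ y.2 := by
          intro y hy
          refine hmk (Or.inl (Or.inl ?_))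
          change (y.1, y.2) ∈ O.arcs ++ _
          exact List.mem_append_right _ (List.mem_flatMap.mpr ⟨e, List.mem_finRange e, hy⟩)
        have hall : ∀ t l : Bool, Quot.mk (fun p q => (O.state S).std.Joined s p q ∨ (p, q) ∈ L)
            (O.corner e false true) = Quot.mk _ (O.corner e t l) := by
          by_cases he : e ∈ S
          · have a1 := harc (O.corner e false true, O.corner e true true) (by
              rw [if_pos he]; simp)
            have a2 := harc (O.corner e false false, O.corner e true false) (by
              rw [if_pos he]; simp)
            intro t l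
            cases t <;> cases l
            · exact hdiag.trans a2.symm
            · rfl
            · exact hdiag
            · exact a1
          · have a1 := harc (O.corner e false true, O.corner e false false) (by
              rw [if_neg he]; simp)
            have a2 := harc (O.corner e true true, O.corner e true false) (by
              rw [if_neg he]; simp)
            intro t l
            cases t <;> cases l
            · exact a1
            · rfl
            · exact hdiag
            · exact hdiag.trans a2.symm
        exact (hall t l).symm.trans (hall t' l')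
    constructor
    intro x y
    induction x using Quot.ind with
    | mk p =>
      induction y using Quot.ind with
      | mk q =>
        have h := hO p q
        induction h with
        | rel p q h => exact hgen p q h
        | refl p => rfl
        | symm p q _ ih => exact ih.symm
        | trans p q r _ _ ih1 ih2 => exact ih1.trans ih2
  have h2 : Nat.card (Quot (fun p q => (O.state S).std.Joined s p q ∨ (p, q) ∈ L)) ≤ 1 :=
    Finite.card_le_one_iff_subsingleton.mpr hsub
  unfold Diagram.loops
  omega

end Pool.Agent.H891R2.SI.S2
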