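import Pool.Agent.H891R2.SI.Defs
import Pool.Agent.H891R2.MT.All
import Pool.Agent.H891R2.MT.T4b
import Pool.Agent.H891R2.MT.T6

set_option autoImplicit false

/-! # S3: the expansion of the bracket of a diagram with twist sites -/

namespace Pool.Agent.H891R2.SI.S3

open Finset LaurentPolynomial Pool.Agent.H891R2.Jones Pool.Agent.H891R2.MT

variable {k : ℕ}

/-- the combination of states which belongs to the set `R` of sites -/
noncomputable def Zp (O : Sites k) (R : Finset (Fin k)) : ℤ[T;T⁻¹] :=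
  ∑ S ∈ (Rᶜ).powerset, (-1) ^ (Rᶜ \ S).card * (-T 2 - T (-2)) ^ S.card * (O.state S).std.bracket

/-- the factor of one site -/
noncomputable def zf (m : ℤ) : ℤ[T;T⁻¹] := (-1) ^ m.natAbs * T (-4 * m)

theorem neg_one_natAbs {R : Type*} [Ring R] (m n : ℤ) :
    (-1 : R) ^ (m + n).natAbs = (-1) ^ m.natAbs * (-1) ^ n.natAbs := by
  rw [← pow_add, neg_one_pow_eq_pow_mod_two, neg_one_pow_eq_pow_mod_two (m.natAbs + n.natAbs)]
  congr 1
  omega

theorem zf_prod (w : Fin k → ℤ) (R : Finset (Fin k)) :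
    ∏ e ∈ R, zf (w e) = (-1) ^ (nS w R).natAbs * T (-4 * nS w R) := by
  classical
  induction R using Finset.induction_on with
  | empty => simp [nS, T_zero]
  | insert a s ha ih =>
    rw [Finset.prod_insert ha, ih]
    have h1 : nS w (insert a s) = w a + nS w s := by
      unfold nS
      rw [Finset.sum_insert ha]
    rw [h1, neg_one_natAbs, mul_add, T_add]
    unfold zf
    ring

theorem T_prod (w : Fin k → ℤ) (R : Finset (Fin k)) :
    (∏ e ∈ R, T (w e) : ℤ[T;T⁻¹]) = T (∑ e ∈ R, w e) := by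
  classical
  induction R using Finset.induction_on with
  | empty => simp [T_zero]
  | insert a s ha ih => rw [Finset.prod_insert ha, ih, Finset.sum_insert ha, T_add]

theorem ev_d (N : ℕ) (hN : 3 ≤ N) : ev N hN (-T 2 - T (-2)) = (N : ℂ) := by
  rw [map_sub, map_neg, ev_T, ev_T, Ar_d N hN, inv_pow]
  rfl

/-- the factor of a cut site -/
theorem ev_cut (N : ℕ) (hN : 3 ≤ N) (m : ℤ) :
    ev N hN ((-1) ^ m.natAbs * T (-3 * m) - T m) = N * gg (Ar N) N m := by
  have hN0 : (N : ℂ) ≠ 0 := by exact_mod_cast (by omega : N ≠ 0)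
  unfold gg
  rw [mul_div_cancel₀ _ hN0, map_sub, map_mul, map_pow, map_neg, map_one, ev_T, ev_T]
  congr 1
  have hA := Ar_ne N hN
  have h1 : (-(Ar N)⁻¹ ^ 3 : ℂ) = (-1) * (Ar N) ^ (-3 : ℤ) := by
    have h0 : (Ar N) ^ (-3 : ℤ) = ((Ar N) ^ 3)⁻¹ := by
      rw [zpow_neg]
      norm_cast
    rw [h0, inv_pow]
    ring
  rw [h1, mul_zpow, ← zpow_mul]
  congr 1
  rcases Int.natAbs_eq m with h | h
  · conv_rhs => rw [h]
    rw [zpow_natCast]
  · conv_rhs => rw [h]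
    rw [zpow_neg, zpow_natCast]
    rcases neg_one_pow_eq_or ℂ m.natAbs with h2 | h2 <;> rw [h2] <;> norm_num

/-- the expansion before simplification -/
theorem step1 (O : Sites k) (hk : 0 < k) (w : Fin k → ℤ)
    (hS1 : ∀ {A : ℂ} (_ : A ≠ 0) {N : ℕ} (_ : N ≠ 0) (_ : (N : ℂ) = -A^2 - A⁻¹^2),
      ∑ col : (O.P ⊕ Ribbon.Pt w) → Fin N, WW A (O.fill w).std.arcs (O.fill w).std.crossings col =
        ∑ S : Finset (Fin k), (∏ e ∈ S, A ^ w e) * (∏ e ∈ Sᶜ, gg A N (w e)) *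
          ∑ col : O.P → Fin N, WW A (O.state S).std.arcs (O.state S).std.crossings col) :
    (-T 2 - T (-2)) ^ k * (O.fill w).std.bracket =
      ∑ S : Finset (Fin k), (∏ e ∈ S, T (w e)) *
        (∏ e ∈ Sᶜ, ((-1) ^ (w e).natAbs * T (-3 * w e) - T (w e))) *
        ((-T 2 - T (-2)) ^ S.card * (O.state S).std.bracket) := by
  have : Nonempty O.P := ⟨O.corner ⟨0, hk⟩ true true⟩
  have : Nonempty (O.P ⊕ Ribbon.Pt w) := ⟨Sum.inl (O.corner ⟨0, hk⟩ true true)⟩
  apply T6.eq_of_ev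
  intro N hN
  have hN0' : N ≠ 0 := by omega
  have hN0 : (N : ℂ) ≠ 0 := by exact_mod_cast hN0'
  apply mul_left_cancel₀ hN0
  have h1 : (N : ℂ) * ev N hN ((-T 2 - T (-2)) ^ k * (O.fill w).std.bracket) =
      (N : ℂ) ^ k * ∑ S : Finset (Fin k), (∏ e ∈ S, Ar N ^ w e) * (∏ e ∈ Sᶜ, gg (Ar N) N (w e)) *
        ∑ col : O.P → Fin N, WW (Ar N) (O.state S).std.arcs (O.state S).std.crossings col := by
    rw [← hS1 (Ar_ne N hN) hN0' (Ar_d N hN), ← ev_bracket N hN, map_mul, map_pow, ev_d]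
    ring
  rw [h1, map_sum, Finset.mul_sum, Finset.mul_sum]
  refine Finset.sum_congr rfl fun S _ => ?_
  rw [map_mul, map_mul, map_mul, map_pow, ev_d, map_prod, map_prod, ← ev_bracket N hN]
  have h2 : ∏ e ∈ S, ev N hN (T (w e)) = ∏ e ∈ S, Ar N ^ w e :=
    Finset.prod_congr rfl fun e _ => ev_T N hN _
  have h3 : ∏ e ∈ Sᶜ, ev N hN ((-1) ^ (w e).natAbs * T (-3 * w e) - T (w e)) =
      (N : ℂ) ^ (Sᶜ).card * ∏ e ∈ Sᶜ, gg (Ar N) N (w e) := by
    rw [Finset.prod_congr rfl fun e _ => ev_cut N hN (w e), Finset.prod_mul_distrib,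
      Finset.prod_const]
  have h4 : (N : ℂ) ^ k = (N : ℂ) ^ S.card * (N : ℂ) ^ (Sᶜ).card := by
    rw [← pow_add]
    congr 1
    have := Finset.card_add_card_compl S
    rw [Fintype.card_fin] at this
    exact this.symm
  rw [h2, h3, h4]
  ring

theorem compl_sdiff_comm' (S R : Finset (Fin k)) : Sᶜ \ R = Rᶜ \ S := by
  ext e
  simp only [Finset.mem_sdiff, Finset.mem_compl]
  tauto

/-- S3: the expansion of the bracket -/
theorem S3 (O : Sites k) (hk : 0 < k) (w : Fin k → ℤ)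
    (hS1 : ∀ {A : ℂ} (_ : A ≠ 0) {N : ℕ} (_ : N ≠ 0) (_ : (N : ℂ) = -A^2 - A⁻¹^2),
      ∑ col : (O.P ⊕ Ribbon.Pt w) → Fin N, WW A (O.fill w).std.arcs (O.fill w).std.crossings col =
        ∑ S : Finset (Fin k), (∏ e ∈ S, A ^ w e) * (∏ e ∈ Sᶜ, gg A N (w e)) *
          ∑ col : O.P → Fin N, WW A (O.state S).std.arcs (O.state S).std.crossings col) :
    (-T 2 - T (-2)) ^ k * T (- ∑ e, w e) * (O.fill w).std.bracket =
      ∑ R : Finset (Fin k), ((-1) ^ (nS w R).natAbs * T (-4 * nS w R)) * Zp O R := by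
  have h1 : (-T 2 - T (-2)) ^ k * T (- ∑ e, w e) * (O.fill w).std.bracket =
      T (- ∑ e, w e) * ((-T 2 - T (-2)) ^ k * (O.fill w).std.bracket) := by ring
  rw [h1, step1 O hk w hS1, Finset.mul_sum]
  have h2 : ∀ S : Finset (Fin k), T (- ∑ e, w e) * ((∏ e ∈ S, T (w e)) *
        (∏ e ∈ Sᶜ, ((-1) ^ (w e).natAbs * T (-3 * w e) - T (w e))) *
        ((-T 2 - T (-2)) ^ S.card * (O.state S).std.bracket)) =
      ∑ R ∈ (Sᶜ).powerset, ((-1) ^ (nS w R).natAbs * T (-4 * nS w R)) *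
        ((-1) ^ (Rᶜ \ S).card * (-T 2 - T (-2)) ^ S.card * (O.state S).std.bracket) := by
    intro S
    have e1 : (T (- ∑ e, w e) : ℤ[T;T⁻¹]) * ∏ e ∈ S, T (w e) = ∏ e ∈ Sᶜ, T (- w e) := by
      rw [T_prod, T_prod (fun e => - w e), ← T_add, Finset.sum_neg_distrib,
        ← Finset.sum_add_sum_compl S]
      congr 1
      ring
    have e2 : (∏ e ∈ Sᶜ, T (- w e)) *
        (∏ e ∈ Sᶜ, ((-1) ^ (w e).natAbs * T (-3 * w e) - T (w e))) =
        (∏ e ∈ Sᶜ, (zf (w e) + (-1)) : ℤ[T;T⁻¹]) := by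
      rw [← Finset.prod_mul_distrib]
      refine Finset.prod_congr rfl fun e _ => ?_
      unfold zf
      have t1 : (T (- w e) : ℤ[T;T⁻¹]) * T (-3 * w e) = T (-4 * w e) := by
        rw [← T_add]
        congr 1
        ring
      have t2 : (T (- w e) : ℤ[T;T⁻¹]) * T (w e) = 1 := by
        rw [← T_add, neg_add_cancel, T_zero]
      linear_combination ((-1) ^ (w e).natAbs : ℤ[T;T⁻¹]) * t1 - t2
    have e3 : (∏ e ∈ Sᶜ, (zf (w e) + (-1)) : ℤ[T;T⁻¹]) = ∑ R ∈ (Sᶜ).powerset,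
        ((-1) ^ (nS w R).natAbs * T (-4 * nS w R)) * (-1) ^ (Rᶜ \ S).card := by
      rw [Finset.prod_add]
      refine Finset.sum_congr rfl fun R _ => ?_
      rw [zf_prod, Finset.prod_const, compl_sdiff_comm']
    calc T (- ∑ e, w e) * ((∏ e ∈ S, T (w e)) *
          (∏ e ∈ Sᶜ, ((-1) ^ (w e).natAbs * T (-3 * w e) - T (w e))) *
          ((-T 2 - T (-2)) ^ S.card * (O.state S).std.bracket))
        = ((T (- ∑ e, w e) * ∏ e ∈ S, T (w e)) *
          (∏ e ∈ Sᶜ, ((-1) ^ (w e).natAbs * T (-3 * w e) - T (w e)))) *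
          ((-T 2 - T (-2)) ^ S.card * (O.state S).std.bracket) := by ring
      _ = _ := by
        rw [e1, e2, e3, Finset.sum_mul]
        refine Finset.sum_congr rfl fun R _ => ?_
        ring
  rw [Finset.sum_congr rfl fun S _ => h2 S]
  unfold Zp
  simp only [Finset.mul_sum]
  refine Finset.sum_comm' ?_
  intro S R
  simp only [Finset.mem_univ, Finset.mem_powerset, true_and, and_true]
  constructor
  · intro h e he
    rw [Finset.mem_compl]
    intro h'
    exact (Finset.mem_compl.1 (h h')) he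
  · intro h e he
    rw [Finset.mem_compl]
    intro h'
    exact (Finset.mem_compl.1 (h h')) he

end Pool.Agent.H891R2.SI.S3
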