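import Pool.Agent.H891R2.SI.Defs
import Pool.Agent.H891R2.MT.T4b

set_option autoImplicit false

/-! S4: supports of the combinations (helper152) -/

namespace Pool.Agent.H891R2.SI.S4

open Finset LaurentPolynomial Pool.Agent.H891R2.Jones Pool.Agent.H891R2.MT T4b

variable {k : ℕ}

/-- the combination of states which belongs to the set `R` of sites -/
noncomputable def Zp (O : Sites k) (R : Finset (Fin k)) : ℤ[T;T⁻¹] :=
  ∑ S ∈ (Rᶜ).powerset, (-1) ^ (Rᶜ \ S).card * (-T 2 - T (-2)) ^ S.card * (O.state S).std.bracket

theorem weight_le {n : ℕ} (s : Fin n → Bool) : Diagram.weight s ≤ n := by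
  unfold Diagram.weight
  refine (Finset.sum_le_card_nsmul _ _ 1 ?_).trans ?_
  · intro i _
    split_ifs <;> norm_num
  · simp

theorem le_weight {n : ℕ} (s : Fin n → Bool) : -(n : ℤ) ≤ Diagram.weight s := by
  unfold Diagram.weight
  have h := Finset.card_nsmul_le_sum (Finset.univ : Finset (Fin n))
    (fun i => if s i then (1 : ℤ) else -1) (-1) (by
      intro i _
      split_ifs <;> norm_num)
  simpa using h

/-- S4: the supports (uses S2) -/
theorem S4 (hS2 : ∀ (O : Sites k), O.Connected → ∀ (S : Finset (Fin k)) 
      (s : Fin (O.state S).std.crossings.length → Bool),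
      (O.state S).std.loops s ≤ O.crossings.length + k + 1)
    (O : Sites k) (hO : O.Connected) (R : Finset (Fin k)) :
    SIn (Zp O R) (-(3 * O.crossings.length + 4 * k)) (3 * O.crossings.length + 4 * k) := by
  unfold Zp
  apply SIn.sum
  intro S _
  have hc : (O.state S).std.crossings.length = O.crossings.length := by
    unfold UDiagram.std Sites.state
    rw [List.length_map]
  have hcard : S.card ≤ k := by
    have := Finset.card_le_univ S
    rwa [Fintype.card_fin] at this
  have hb : SIn (O.state S).std.bracket (-(3 * O.crossings.length + 2 * k))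
      (3 * O.crossings.length + 2 * k) := by
    unfold Diagram.bracket
    apply SIn.sum
    intro s _
    have h1 := weight_le s
    have h2 := le_weight s
    have hc' : ((O.state S).std.crossings.length : ℤ) = O.crossings.length := by rw [hc]
    have h1' := h1.trans_eq hc'
    have h2' := (neg_le_neg hc'.le).trans h2
    clear h1 h2
    have h3 := hS2 O hO S s
    have h4 := SIn_d.pow ((O.state S).std.loops s - 1)
    refine ((SIn.T _).mul h4).mono ?_ ?_ <;> omega
  have h1 := (SIn_sgn (Rᶜ \ S).card).mul (SIn_d.pow S.card)
  refine (h1.mul hb).mono ?_ ?_ <;> push_cast <;> linarith [(Nat.cast_le (α := ℤ)).2 hcard]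

end Pool.Agent.H891R2.SI.S4
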