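import Pool.Agent.H891R2.SI.Defs

set_option autoImplicit false

namespace Pool.Agent.H891R2.SI.S5

open Finset LaurentPolynomial Pool.Agent.H891R2.Jones Pool.Agent.H891R2.MT

variable {k : ℕ}

noncomputable def Zp (O : Sites k) (R : Finset (Fin k)) : ℤ[T;T⁻¹] :=
  ∑ S ∈ (Rᶜ).powerset, (-1) ^ (Rᶜ \ S).card * (-T 2 - T (-2)) ^ S.card * (O.state S).std.bracket

theorem S5 (O : Sites k) (h : det O.cut ≠ 0) (R : Finset (Fin k)) : Zp O R ≠ 0 := by
  intro h0
  set φ : ℤ[T;T⁻¹] →+* ℂ := LaurentPolynomial.eval₂ (Int.castRingHom ℂ) zeta8 with hφ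
  have hT : ∀ n : ℤ, φ (T n) = (zeta8 : ℂ) ^ n := by
    intro n
    rw [hφ, LaurentPolynomial.eval₂_T]
    simp
  have h4 : (zeta8 : ℂ) ^ 4 = -1 := by
    unfold zeta8
    rw [Units.val_mk0, ← Complex.exp_nat_mul]
    have : ((4 : ℕ) : ℂ) * (Real.pi / 4 * Complex.I) = Real.pi * Complex.I := by push_cast; ring
    rw [this, Complex.exp_pi_mul_I]
  have hd : φ (-T 2 - T (-2)) = 0 := by
    have e3 : φ (T 2) = - φ (T (-2)) := by
      have : (T 2 : ℤ[T;T⁻¹]) = T 4 * T (-2) := by rw [← T_add]; norm_num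
      have h5 : φ (T 4) = -1 := by rw [hT]; exact_mod_cast h4
      rw [this, map_mul, h5]
      ring
    rw [map_sub, map_neg, e3]
    ring
  have h1 := congrArg φ h0
  unfold Zp at h1
  rw [map_sum, map_zero, Finset.sum_eq_single ∅] at h1
  · rw [map_mul, map_mul, Finset.card_empty, pow_zero, map_one, mul_one, map_pow, map_neg, map_one] at h1
    have h2 : φ (O.state ∅).std.bracket = 0 := by
      rcases mul_eq_zero.1 h1 with h3 | h3
      · exact absurd h3 (pow_ne_zero _ (by norm_num))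
      · exact h3
    apply h
    unfold det Sites.cut
    rw [← hφ, h2, norm_zero]
  · intro S _ hS
    have : 0 < S.card := Finset.card_pos.2 (Finset.nonempty_iff_ne_empty.2 hS)
    rw [map_mul, map_mul, map_pow φ (-T 2 - T (-2)), hd, zero_pow this.ne', mul_zero, zero_mul]
  · intro h2
    exact absurd (Finset.empty_mem_powerset _) h2

end Pool.Agent.H891R2.SI.S5
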