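import Pool.Agent.H891R2.SI.S1
import Pool.Agent.H891R2.SI.S2
import Pool.Agent.H891R2.SI.S3
import Pool.Agent.H891R2.SI.S4
import Pool.Agent.H891R2.SI.S5
import Pool.Agent.H891R2.SI.S6

set_option autoImplicit false

/-!
The lemmas of the project, proved by helpers 802 (S1), 819 (S2), 406 (S3), 152 (S4), 413 (S6).
-/

namespace Pool.Agent.H891R2.SI

open Finset LaurentPolynomial Pool.Agent.H891R2.Jones Pool.Agent.H891R2.MT T4b

variable {k : ℕ}

/-- the combination of states which belongs to the set `R` of sites -/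
noncomputable def Zp (O : Sites k) (R : Finset (Fin k)) : ℤ[T;T⁻¹] :=
  ∑ S ∈ (Rᶜ).powerset, (-1) ^ (Rᶜ \ S).card * (-T 2 - T (-2)) ^ S.card * (O.state S).std.bracket

theorem S3 (O : Sites k) (hk : 0 < k) (w : Fin k → ℤ) :
    (-T 2 - T (-2)) ^ k * T (- ∑ e, w e) * (O.fill w).std.bracket = 
      ∑ R : Finset (Fin k), ((-1) ^ (nS w R).natAbs * T (-4 * nS w R)) * Zp O R := 
  S3.S3 O hk w (by intro A hA N hN hNA; exact S1.S1 O w hA hN hNA)

theorem S4 (O : Sites k) (hO : O.Connected) (R : Finset (Fin k)) :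
    SIn (Zp O R) (-(3 * O.crossings.length + 4 * k)) (3 * O.crossings.length + 4 * k) := 
  S4.S4 (fun O hO S s => S2.S2 O hO S s) O hO R

theorem S5 (O : Sites k) (h : det O.cut ≠ 0) (R : Finset (Fin k)) : Zp O R ≠ 0 := S5.S5 O h R

theorem S6 (B : ℤ) (Z : Finset (Fin k) → ℤ[T;T⁻¹]) (hZ : ∀ R, SIn (Z R) (-B) B) 
    (hZ0 : ∀ R, Z R ≠ 0) (w : Fin k → ℤ) (hw : ∀ e, B < 2 * |w e|) (lo hi : ℤ)
    (h : SIn (∑ R : Finset (Fin k), ((-1) ^ (nS w R).natAbs * T (-4 * nS w R)) * Z R) lo hi) :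
    4 * ∑ e, |w e| ≤ (hi - lo) + 2 * B := S6.S6 B Z hZ hZ0 w hw lo hi h

end Pool.Agent.H891R2.SI
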