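import Pool.Agent.H891R2.MT.Defs

set_option autoImplicit false

/-!
Link diagrams with several twist sites.
-/

namespace Pool.Agent.H891R2.SI

open Finset LaurentPolynomial Pool.Agent.H891R2.Jones Pool.Agent.H891R2.MT

/-- An unoriented link diagram with `k` open boxes (sites): marked points `P`, arcs and crossings
outside the boxes (as in `UDiagram`), and for every site `e` its four corners
`corner e t l`: `t = false` bottom, `t = true` top; `l = true` left, `l = false` right. -/
structure Sites (k : ℕ) where
  P : Type
  [fin : Fintype P]
  [dec : DecidableEq P]
  arcs : List (P × P)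
  crossings : List (P × P × P × P)
  corner : Fin k → Bool → Bool → P

attribute [instance] Sites.fin Sites.dec

namespace Sites

variable {k : ℕ} (O : Sites k)

/-- the arcs which join the corners of the site `e` with the ends of a row of `|w e|` crossings -/
def siteArcs (w : Fin k → ℤ) (e : Fin k) : List ((O.P ⊕ Ribbon.Pt w) × (O.P ⊕ Ribbon.Pt w)) :=
  [(.inl (O.corner e false true), .inr ⟨e, 0, true⟩), 
   (.inl (O.corner e false false), .inr ⟨e, 0, false⟩),
   (.inl (O.corner e true true), .inr ⟨e, Fin.last _, true⟩), 
   (.inl (O.corner e true false), .inr ⟨e, Fin.last _, false⟩)]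

/-- fill every site `e` with two vertical strands twisted `|w e|` times around each other: a
vertical row of `|w e|` crossings, of the kind given by the sign of `w e` -/
def fill (w : Fin k → ℤ) : UDiagram (O.P ⊕ Ribbon.Pt w) where
  arcs := O.arcs.map (Prod.map .inl .inl) ++ (List.finRange k).flatMap (O.siteArcs w)
  crossings := O.crossings.map (Prod.map .inl (Prod.map .inl (Prod.map .inl .inl))) ++ 
    (List.finRange k).flatMap (fun e => (List.finRange (w e).natAbs).map (fun j => 
      Prod.map .inr (Prod.map .inr (Prod.map .inr .inr)) (Ribbon.twistCrossing w e j)))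

/-- fill the sites `e ∈ S` with two vertical strands without crossings, the other sites with a cap
and a cup (two strands without crossings, one joining the two bottom corners and one joining the two
top corners) -/
def state (S : Finset (Fin k)) : UDiagram O.P where
  arcs := O.arcs ++ (List.finRange k).flatMap (fun e => if e ∈ S 
    then [(O.corner e false true, O.corner e true true), (O.corner e false false, O.corner e true false)]
    else [(O.corner e false true, O.corner e false false), (O.corner e true true, O.corner e true false)])
  crossings := O.crossings

/-- all sites are cut: the two bottom corners are joined and the two top corners are joined -/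
def cut : UDiagram O.P := O.state ∅

/-- the diagram is connected (where every site is regarded as one piece) -/
def Connected : Prop :=
  ∀ p q : O.P, Relation.EqvGen (fun p q => (p, q) ∈ O.arcs ∨ 
    (∃ x ∈ O.crossings, (p = x.1 ∨ p = x.2.1 ∨ p = x.2.2.1 ∨ p = x.2.2.2) ∧
      (q = x.1 ∨ q = x.2.1 ∨ q = x.2.2.1 ∨ q = x.2.2.2)) ∨ 
    (∃ (e : Fin k) (t l t' l' : Bool), p = O.corner e t l ∧ q = O.corner e t' l')) p q

end Sites

/-- the unit `e^{πi/4}` -/
noncomputable def zeta8 : ℂˣ := Units.mk0 (Complex.exp (Real.pi / 4 * Complex.I)) (Complex.exp_ne_zero _)

/-- the determinant of a link diagram: the absolute value of the Kauffman bracket at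
`A = e^{πi/4}`, that is, of the Jones polynomial at `t = A⁻⁴ = -1` -/
noncomputable def det {P : Type} (U : UDiagram P) : ℝ :=
  ‖LaurentPolynomial.eval₂ (Int.castRingHom ℂ) zeta8 U.std.bracket‖

end Pool.Agent.H891R2.SI
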