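import Pool.Agent.H891R2.SI.All
import Pool.Agent.H891R2.MT.T6

set_option autoImplicit false

/-! Assembly. -/

namespace Pool.Agent.H891R2.SI

open Finset LaurentPolynomial Pool.Agent.H891R2.Jones Pool.Agent.H891R2.MT T4b

variable {k : ℕ}

namespace Fin

/-- the bracket of an oriented diagram from its normalised bracket -/
theorem SIn_bracket {P : Type} (D : Diagram P) (lo hi : ℤ) (h : SIn D.fPoly lo hi) : 
    ∃ m, SIn D.bracket (lo + m) (hi + m) := by
  refine ⟨3 * D.writhe, ?_⟩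
  have h1 : (T (3 * D.writhe) : ℤ[T;T⁻¹]) * T (-3 * D.writhe) = 1 := by
    rw [← T_add]
    have : 3 * D.writhe + -3 * D.writhe = 0 := by ring
    rw [this, T_zero]
  have h2 : D.bracket = C (if Even D.writhe then (1:ℤ) else -1) * T (3 * D.writhe) * D.fPoly := by
    unfold Diagram.fPoly
    by_cases hw : Even D.writhe
    · simp only [hw, if_true, map_one, one_mul]
      rw [← mul_assoc, h1, one_mul]
    · simp only [hw, if_false, map_neg, map_one]
      linear_combination (-D.bracket) * h1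
  rw [h2]
  exact ((SIn.C _).mul (SIn.T _)).mul h |>.mono (by linarith) (by linarith)

theorem main (O : Sites k) (hk : 0 < k) (hO : O.Connected) (hdet : det O.cut ≠ 0) 
    (w : Fin k → ℤ) (hw : ∀ e, 2 * O.crossings.length + 4 * k ≤ |w e|)
    (D : Diagram (O.P ⊕ Ribbon.Pt w)) (hD : Orients D (O.fill w)) (lo hi : ℤ) 
    (h : ∀ j, D.fPoly.coeff j ≠ 0 → lo ≤ j ∧ j ≤ hi) :
    4 * ∑ e, |w e| ≤ (hi - lo) + 6 * O.crossings.length + 12 * k := by
  obtain ⟨m, hm⟩ := SIn_bracket D lo hi h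
  have : Nonempty (O.P ⊕ Ribbon.Pt w) := ⟨.inl (O.corner ⟨0, hk⟩ false false)⟩
  rw [MT.T6.bracket_orients D (O.fill w) hD] at hm
  have h1 : SIn ((-T 2 - T (-2)) ^ k * T (- ∑ e, w e) * (O.fill w).std.bracket) 
      (-(k * 2) + (- ∑ e, w e) + (lo + m)) (k * 2 + (- ∑ e, w e) + (hi + m)) :=
    ((SIn_d.pow k).mul (SIn.T _)).mul hm
  rw [S3 O hk w] at h1
  have hck : (0 : ℤ) < 3 * O.crossings.length + 4 * k := by
    have : (0 : ℤ) < k := by exact_mod_cast hk
    positivity
  have h2 := S6 (3 * O.crossings.length + 4 * k) (Zp O) (S4 O hO) (S5 O hdet) w 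
    (fun e => by have := hw e; linarith) _ _ h1
  linarith

end Fin

end Pool.Agent.H891R2.SI
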