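import Pool.Agent.H891R2.SI.Defs
import Pool.Agent.H891R2.MT.All

set_option autoImplicit false

/-! Task SS1 (helper802): the transfer through the sites. -/

namespace Pool.Agent.H891R2.SI.S1

open Finset LaurentPolynomial Pool.Agent.H891R2.Jones Pool.Agent.H891R2.MT
open T1a (stepW band_sum)
open T1b (lvEquiv prod_flatMap fun_eq_iff crossW_eq)

variable {k : ℕ}

/-- the colours at the bottom (`false`) and at the top (`true`) of the site `e` -/
def yy (O : Sites k) {N : ℕ} (u : O.P → Fin N) (e : Fin k) (t : Bool) : Bool → Fin N :=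
  fun s => u (O.corner e t s)

theorem arcs_fill (O : Sites k) (w : Fin k → ℤ) {N : ℕ} (u : O.P → Fin N)
    (x : Ribbon.Pt w → Fin N) :
    ((O.fill w).std.arcs.map (arcW (Sum.elim u x))).prod = (O.arcs.map (arcW u)).prod *
      ∏ e : Fin k, ind (lvEquiv w N x e 0 = yy O u e false ∧
        lvEquiv w N x e (Fin.last _) = yy O u e true) := by
  have h0 : (O.fill w).std.arcs = O.arcs.map (Prod.map .inl .inl) ++
    (List.finRange k).flatMap (O.siteArcs w) := rfl
  rw [h0, List.map_append, List.prod_append, List.map_map, List.map_flatMap, prod_flatMap,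
    Fin.prod_univ_def]
  congr 1
  congr 1
  apply List.map_congr_left
  intro e _
  have h1 : (O.siteArcs w e).map (arcW (Sum.elim u x)) =
      [ind (u (O.corner e false true) = x ⟨e, 0, true⟩),
       ind (u (O.corner e false false) = x ⟨e, 0, false⟩),
       ind (u (O.corner e true true) = x ⟨e, Fin.last _, true⟩),
       ind (u (O.corner e true false) = x ⟨e, Fin.last _, false⟩)] := rfl
  rw [h1]
  simp only [List.prod_cons, List.prod_nil, mul_one]
  rw [ind_mul, ind_mul, ind_mul]
  apply ind_congr
  rw [fun_eq_iff, fun_eq_iff]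
  unfold yy lvEquiv
  simp only [Equiv.coe_fn_mk]
  constructor
  · rintro ⟨h1, h2, h3, h4⟩
    exact ⟨⟨h1.symm, h2.symm⟩, ⟨h3.symm, h4.symm⟩⟩
  · rintro ⟨⟨h1, h2⟩, ⟨h3, h4⟩⟩
    exact ⟨h1.symm, h2.symm, h3.symm, h4.symm⟩

theorem arcs_state (O : Sites k) (S : Finset (Fin k)) {N : ℕ} (u : O.P → Fin N) :
    ((O.state S).std.arcs.map (arcW u)).prod = (O.arcs.map (arcW u)).prod *
      ∏ e : Fin k, (if e ∈ S then ind (yy O u e false = yy O u e true)
        else ind (yy O u e false true = yy O u e false false ∧
          yy O u e true true = yy O u e true false)) := by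
  have h0 : (O.state S).std.arcs = O.arcs ++ (List.finRange k).flatMap (fun e => if e ∈ S
    then [(O.corner e false true, O.corner e true true), (O.corner e false false, O.corner e true false)]
    else [(O.corner e false true, O.corner e false false), (O.corner e true true, O.corner e true false)]) :=
    rfl
  rw [h0, List.map_append, List.prod_append, List.map_flatMap, prod_flatMap, Fin.prod_univ_def]
  congr 1
  congr 1
  apply List.map_congr_left
  intro e _
  by_cases he : e ∈ S
  · rw [if_pos he, if_pos he]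
    simp only [List.map_cons, List.map_nil, List.prod_cons, List.prod_nil, mul_one, arcW]
    rw [ind_mul]
    apply ind_congr
    rw [fun_eq_iff]
    rfl
  · rw [if_neg he, if_neg he]
    simp only [List.map_cons, List.map_nil, List.prod_cons, List.prod_nil, mul_one, arcW]
    rw [ind_mul]
    rfl

theorem crossings_fill (O : Sites k) (w : Fin k → ℤ) (A : ℂ) {N : ℕ} (u : O.P → Fin N)
    (x : Ribbon.Pt w → Fin N) :
    ((O.fill w).std.crossings.map (crossW A (Sum.elim u x))).prod =
      (O.crossings.map (fun c => crossW A u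
        (⟨c.1, c.2.1, c.2.2.1, c.2.2.2, true, true⟩ : Crossing O.P))).prod *
      ∏ e : Fin k, ∏ j : Fin (w e).natAbs, stepW A (decide (0 < w e))
        (lvEquiv w N x e j.castSucc) (lvEquiv w N x e j.succ) := by
  have h0 : (O.fill w).std.crossings =
      ((O.crossings.map (Prod.map Sum.inl (Prod.map Sum.inl (Prod.map Sum.inl Sum.inl))) ++ 
    (List.finRange k).flatMap (fun e => (List.finRange (w e).natAbs).map (fun j => 
      Prod.map Sum.inr (Prod.map Sum.inr (Prod.map Sum.inr Sum.inr))
        (Ribbon.twistCrossing w e j))) :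
        List ((O.P ⊕ Ribbon.Pt w) × (O.P ⊕ Ribbon.Pt w) × (O.P ⊕ Ribbon.Pt w) ×
          (O.P ⊕ Ribbon.Pt w)))).map
        (fun x => (⟨x.1, x.2.1, x.2.2.1, x.2.2.2, true, true⟩ : Crossing (O.P ⊕ Ribbon.Pt w))) := rfl
  rw [h0, List.map_append, List.map_append, List.prod_append, List.map_map, List.map_map,
    List.map_flatMap, List.map_flatMap, prod_flatMap, Fin.prod_univ_def]
  congr 1
  congr 1
  apply List.map_congr_left
  intro e _
  rw [Fin.prod_univ_def, List.map_map, List.map_map]
  congr 1
  apply List.map_congr_left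
  intro j _
  exact crossW_eq w A x e j

theorem crossings_state (O : Sites k) (S : Finset (Fin k)) (A : ℂ) {N : ℕ} (u : O.P → Fin N) :
    ((O.state S).std.crossings.map (crossW A u)).prod = 
      (O.crossings.map (fun c => crossW A u
        (⟨c.1, c.2.1, c.2.2.1, c.2.2.2, true, true⟩ : Crossing O.P))).prod := by
  have h0 : (O.state S).std.crossings =
      O.crossings.map (fun x => ⟨x.1, x.2.1, x.2.2.1, x.2.2.2, true, true⟩) := rfl
  rw [h0, List.map_map]
  rfl

theorem S1_aux (O : Sites k) (w : Fin k → ℤ) {A : ℂ} (hA : A ≠ 0) {N : ℕ} (hN : N ≠ 0)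
    (hNA : (N : ℂ) = -A^2 - A⁻¹^2) :
    ∑ col : (O.P ⊕ Ribbon.Pt w) → Fin N, WW A (O.fill w).std.arcs (O.fill w).std.crossings col =
      ∑ S : Finset (Fin k), (∏ e ∈ S, A ^ w e) * (∏ e ∈ Sᶜ, T1a.gg A N (w e)) * 
        ∑ col : O.P → Fin N, WW A (O.state S).std.arcs (O.state S).std.crossings col := by
  classical
  rw [← (Equiv.sumArrowEquivProdArrow O.P (Ribbon.Pt w) (Fin N)).symm.sum_comp,
    Fintype.sum_prod_type]
  have key : ∀ u : O.P → Fin N, ∑ x : Ribbon.Pt w → Fin N,
      WW A (O.fill w).std.arcs (O.fill w).std.crossings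
        ((Equiv.sumArrowEquivProdArrow O.P (Ribbon.Pt w) (Fin N)).symm (u, x)) =
      ∑ S : Finset (Fin k), (∏ e ∈ S, A ^ w e) * (∏ e ∈ Sᶜ, T1a.gg A N (w e)) * 
        WW A (O.state S).std.arcs (O.state S).std.crossings u := by
    intro u
    set a : ℂ := (O.arcs.map (arcW u)).prod with ha
    set c : ℂ := (O.crossings.map (fun c => crossW A u
        (⟨c.1, c.2.1, c.2.2.1, c.2.2.2, true, true⟩ : Crossing O.P))).prod with hc
    set f : ∀ e : Fin k, (Fin ((w e).natAbs + 1) → Bool → Fin N) → ℂ := fun e z =>
      ind (z 0 = yy O u e false ∧ z (Fin.last _) = yy O u e true) *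
        ∏ j : Fin (w e).natAbs, stepW A (decide (0 < w e)) (z j.castSucc) (z j.succ) with hf
    have h1 : ∑ x : Ribbon.Pt w → Fin N,
        WW A (O.fill w).std.arcs (O.fill w).std.crossings
          ((Equiv.sumArrowEquivProdArrow O.P (Ribbon.Pt w) (Fin N)).symm (u, x)) =
        ∑ z : (∀ e : Fin k, Fin ((w e).natAbs + 1) → Bool → Fin N), a * c * ∏ e, f e (z e) := by
      rw [← Equiv.sum_comp (lvEquiv w N)]
      refine Finset.sum_congr rfl fun x _ => ?_
      have e0 : (Equiv.sumArrowEquivProdArrow O.P (Ribbon.Pt w) (Fin N)).symm (u, x) =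
        Sum.elim u x := rfl
      rw [e0]
      unfold WW
      rw [arcs_fill, crossings_fill, ← ha, ← hc, hf]
      simp only
      rw [Finset.prod_mul_distrib]
      ring
    have h2 : ∑ z : (∀ e : Fin k, Fin ((w e).natAbs + 1) → Bool → Fin N), ∏ e, f e (z e) =
        ∏ e, (A ^ w e * ind (yy O u e false = yy O u e true) +
          T1a.gg A N (w e) * ind (yy O u e false true = yy O u e false false ∧
            yy O u e true true = yy O u e true false)) := by
      rw [← Fintype.piFinset_univ, ← Finset.prod_univ_sum (fun e => Finset.univ) f]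
      exact Finset.prod_congr rfl fun e _ => band_sum hA hN hNA (w e) _ _
    rw [h1, ← Finset.mul_sum, h2, Finset.prod_add, Finset.mul_sum, Finset.powerset_univ]
    refine Finset.sum_congr rfl fun S _ => ?_
    unfold WW
    rw [arcs_state, crossings_state, ← ha, ← hc, Finset.prod_mul_distrib,
      Finset.prod_mul_distrib, Finset.compl_eq_univ_sdiff,
      ← Finset.prod_sdiff (Finset.subset_univ S) (f := fun e =>
        (if e ∈ S then ind (yy O u e false = yy O u e true)
        else ind (yy O u e false true = yy O u e false false ∧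
          yy O u e true true = yy O u e true false)))]
    have h3 : ∏ e ∈ Finset.univ \ S, (if e ∈ S then ind (yy O u e false = yy O u e true)
        else ind (yy O u e false true = yy O u e false false ∧
          yy O u e true true = yy O u e true false)) =
        ∏ e ∈ Finset.univ \ S, ind (yy O u e false true = yy O u e false false ∧
          yy O u e true true = yy O u e true false) :=
      Finset.prod_congr rfl fun e he => if_neg (Finset.mem_sdiff.1 he).2
    have h4 : ∏ e ∈ S, (if e ∈ S then ind (yy O u e false = yy O u e true)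
        else ind (yy O u e false true = yy O u e false false ∧
          yy O u e true true = yy O u e true false)) =
        ∏ e ∈ S, ind (yy O u e false = yy O u e true) :=
      Finset.prod_congr rfl fun e he => if_pos he
    rw [h3, h4]
    ring
  rw [Finset.sum_congr rfl fun u _ => key u, Finset.sum_comm]
  refine Finset.sum_congr rfl fun S _ => ?_
  rw [Finset.mul_sum]

theorem S1 (O : Sites k) (w : Fin k → ℤ) {A : ℂ} (hA : A ≠ 0) {N : ℕ} (hN : N ≠ 0)
    (hNA : (N : ℂ) = -A^2 - A⁻¹^2) :
    ∑ col : (O.P ⊕ Ribbon.Pt w) → Fin N, WW A (O.fill w).std.arcs (O.fill w).std.crossings col =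
      ∑ S : Finset (Fin k), (∏ e ∈ S, A ^ w e) * (∏ e ∈ Sᶜ, MT.gg A N (w e)) * 
        ∑ col : O.P → Fin N, WW A (O.state S).std.arcs (O.state S).std.crossings col :=
  S1_aux O w hA hN hNA

end Pool.Agent.H891R2.SI.S1
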