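import Pool.Agent.H891R2.SI.Defs
import Pool.Agent.H891R2.MT.All
import Pool.Agent.H891R2.MT.T4b
import Pool.Agent.H891R2.MT.T6

set_option autoImplicit false

/-! Statements of the tasks (for distribution only; do not import). -/

namespace Pool.Agent.H891R2.SI

open Finset LaurentPolynomial Pool.Agent.H891R2.Jones Pool.Agent.H891R2.MT T4b

variable {k : ℕ}

/-- S1: the transfer through the sites -/
theorem S1 (O : Sites k) (w : Fin k → ℤ) {A : ℂ} (hA : A ≠ 0) {N : ℕ} (hN : N ≠ 0)
    (hNA : (N : ℂ) = -A^2 - A⁻¹^2) :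
    ∑ col : (O.P ⊕ Ribbon.Pt w) → Fin N, WW A (O.fill w).std.arcs (O.fill w).std.crossings col =
      ∑ S : Finset (Fin k), (∏ e ∈ S, A ^ w e) * (∏ e ∈ Sᶜ, gg A N (w e)) * 
        ∑ col : O.P → Fin N, WW A (O.state S).std.arcs (O.state S).std.crossings col := by
  sorry

/-- S2: the number of loops of a state of a connected diagram -/
theorem S2 (O : Sites k) (hO : O.Connected) (S : Finset (Fin k)) 
    (s : Fin (O.state S).std.crossings.length → Bool) :
    (O.state S).std.loops s ≤ O.crossings.length + k + 1 := by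
  sorry

/-- the combination of states which belongs to the set `R` of sites -/
noncomputable def Zp (O : Sites k) (R : Finset (Fin k)) : ℤ[T;T⁻¹] :=
  ∑ S ∈ (Rᶜ).powerset, (-1) ^ (Rᶜ \ S).card * (-T 2 - T (-2)) ^ S.card * (O.state S).std.bracket

/-- S3: the expansion of the bracket (uses S1) -/
theorem S3 (O : Sites k) (hk : 0 < k) (w : Fin k → ℤ) :
    (-T 2 - T (-2)) ^ k * T (- ∑ e, w e) * (O.fill w).std.bracket = 
      ∑ R : Finset (Fin k), ((-1) ^ (nS w R).natAbs * T (-4 * nS w R)) * Zp O R := by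
  sorry

/-- S4: the supports (uses S2) -/
theorem S4 (O : Sites k) (hO : O.Connected) (R : Finset (Fin k)) :
    SIn (Zp O R) (-(3 * O.crossings.length + 4 * k)) (3 * O.crossings.length + 4 * k) := by
  sorry

/-- S5: the combinations do not vanish -/
theorem S5 (O : Sites k) (h : det O.cut ≠ 0) (R : Finset (Fin k)) : Zp O R ≠ 0 := by
  sorry

/-- S6: the extreme terms are not cancelled -/
theorem S6 (B : ℤ) (Z : Finset (Fin k) → ℤ[T;T⁻¹]) (hZ : ∀ R, SIn (Z R) (-B) B) 
    (hZ0 : ∀ R, Z R ≠ 0) (w : Fin k → ℤ) (hw : ∀ e, B < 2 * |w e|) (lo hi : ℤ)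
    (h : SIn (∑ R : Finset (Fin k), ((-1) ^ (nS w R).natAbs * T (-4 * nS w R)) * Z R) lo hi) :
    4 * ∑ e, |w e| ≤ (hi - lo) + 2 * B := by
  sorry

end Pool.Agent.H891R2.SI
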